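import Pool.Agent.Q286.EQ.Eqv

/-!
# The leading terms at `s = 1` of all equivariant L-functions of an elliptic curve from the classes of
# Frobenius elements

`K/F` is a finite Galois extension of number fields, `Γ = Gal(K/F)`, and `E` is an elliptic curve over
`F`, given by an integral Weierstrass equation `W`.  For each conjugacy class of `Γ` the rotated sum over
the powers of primes of `F` with Frobenius elements in the class is evaluated with error
`O(1 / log X)`, without any hypothesis on the zeros of the L-functions: the main term is a combination of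
the orders and of the logarithms of the leading terms at `s = 1` of the functions `L(E ⊗ ρ, s)`, `ρ`
irreducible.  So the order and the leading coefficient of `L(E ⊗ ρ, s)`, and of the L-function of `E`
over each field between `F` and `K`, are equal to given numbers if and only if an explicit limit over
the primes in the classes has a given value.
-/

set_option autoImplicit false

namespace Pool.Agent.Results.MP_9ab903_nt.LeadingTermsFromClasses

open Complex Filter Topology NumberField IsDedekindDomain Polynomial WeierstrassCurve MeasureTheory Set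
open scoped Classical

/-- The number of solutions of the affine Weierstrass equation of `V` with coordinates in `R`. -/
noncomputable def affineCount {R : Type} [CommRing R] (V : WeierstrassCurve R) : ℕ :=
  Nat.card {P : R × R // P.2 ^ 2 + V.a₁ * P.1 * P.2 + V.a₃ * P.2 =
    P.1 ^ 3 + V.a₂ * P.1 ^ 2 + V.a₄ * P.1 + V.a₆}

variable {F : Type} [Field F] [NumberField F]

/-- `q_v`, the number of elements of the residue field of `v`. -/
noncomputable def q (v : HeightOneSpectrum (𝓞 F)) : ℕ := Ideal.absNorm v.asIdeal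

/-- `a_v = q_v + 1 - #E(k_v)`, `k_v` the residue field of `v`; there is one point at infinity. -/
noncomputable def frobTrace (W : WeierstrassCurve (𝓞 F)) (v : HeightOneSpectrum (𝓞 F)) : ℤ :=
  (q v : ℤ) + 1 - ((affineCount (W.map (Ideal.Quotient.mk v.asIdeal)) : ℤ) + 1)

/-- `α^j + β^j`, where `α` and `β` are the roots of `X² - a X + q`. -/
def powerSum (a q : ℤ) : ℕ → ℤ
  | 0 => 2
  | 1 => a
  | (j + 2) => a * powerSum a q (j + 1) - q * powerSum a q j

variable {K : Type} [Field K] [NumberField K] [Algebra F K]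

/-- `σ` is a Frobenius element at the prime `v` of `F`: there is a prime `w` of `K` above `v` with
`σ x ≡ x ^ q_v` modulo `w` for all integers `x` of `K`. -/
def IsFrobenius (v : HeightOneSpectrum (𝓞 F)) (σ : K ≃ₐ[F] K) : Prop :=
  ∃ w : Ideal (𝓞 K), w.IsMaximal ∧ w.comap (algebraMap (𝓞 F) (𝓞 K)) = v.asIdeal ∧
    ∀ x : 𝓞 K, ∃ y ∈ w, (y : K) = σ x - (x : K) ^ q v

/-- The polynomial `P` is the Euler factor of `L(E ⊗ ρ, s)` at `v`:
`P(z) = det(1 - a_v z ρ(Frob_v⁻¹) + q_v z² ρ(Frob_v⁻¹)²)`. -/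
def IsEulerFactor (W : WeierstrassCurve (𝓞 F)) {n : ℕ}
    (ρ : Representation ℂ (K ≃ₐ[F] K) (Fin n → ℂ)) (v : HeightOneSpectrum (𝓞 F)) (P : ℂ[X]) : Prop :=
  ∀ σ : K ≃ₐ[F] K, IsFrobenius v σ → ∀ z : ℂ,
    P.eval z = LinearMap.det (1 - ((frobTrace W v : ℂ) * z) • ρ σ⁻¹ +
      ((q v : ℂ) * z ^ 2) • (ρ σ⁻¹) ^ 2)

/-- The Euler product `∏_v B_v(q_v^{-s})⁻¹`. -/
noncomputable def eulerProduct (B : HeightOneSpectrum (𝓞 F) → ℂ[X]) (s : ℂ) : ℂ :=
  ∏' v : HeightOneSpectrum (𝓞 F), ((B v).eval ((q v : ℂ) ^ (-s)))⁻¹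

/-- The product `b = ∏_{v ∈ S} B_v(q_v⁻¹)` of the excluded Euler factors at `s = 1`. -/
noncomputable def excluded (S : Finset (HeightOneSpectrum (𝓞 F)))
    (B : HeightOneSpectrum (𝓞 F) → ℂ[X]) : ℂ :=
  ∏ v ∈ S, (B v).eval ((q v : ℂ) ^ (-(1 : ℂ)))

/-- The kernel `e^{icu} / Γ(1 + u)`. -/
noncomputable def kernel (c u : ℝ) : ℂ := exp ((c * u : ℝ) * I) * ((Real.Gamma (1 + u))⁻¹ : ℝ)

/-- The constant `∫_0^∞ (e^{-t} - e^{ict} / Γ(1 + t)) dt / t`. -/
noncomputable def kappa (c : ℝ) : ℂ :=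
  ∫ t in Ioi (0 : ℝ), (exp (-(t : ℂ)) - exp ((c * t : ℝ) * I) * ((Real.Gamma (1 + t))⁻¹ : ℝ)) / t

/-- The term of the sum over the class of `σ` at `(v, i)`, `i = j - 1`: for `v` outside `S` and
`φ_v^j` conjugate to `σ` it is `(α_v^j + β_v^j) / (j q_v^j) · k(j log q_v / log X)`, `k` the kernel. -/
noncomputable def classTerm (W : WeierstrassCurve (𝓞 F)) (S : Finset (HeightOneSpectrum (𝓞 F)))
    (φ : HeightOneSpectrum (𝓞 F) → K ≃ₐ[F] K) (c : ℝ) (σ : K ≃ₐ[F] K) (X : ℝ)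
    (x : HeightOneSpectrum (𝓞 F) × ℕ) : ℂ :=
  if x.1 ∉ S ∧ IsConj (φ x.1 ^ (x.2 + 1)) σ then
    (powerSum (frobTrace W x.1) (q x.1) (x.2 + 1) : ℂ) / (((x.2 + 1 : ℕ) : ℂ) * (q x.1 : ℂ) ^ (x.2 + 1)) *
      kernel c ((x.2 + 1) * Real.log (q x.1) / Real.log X) else 0

/-- The sum over the class of `σ`. -/
noncomputable def classSum (W : WeierstrassCurve (𝓞 F)) (S : Finset (HeightOneSpectrum (𝓞 F)))
    (φ : HeightOneSpectrum (𝓞 F) → K ≃ₐ[F] K) (c : ℝ) (σ : K ≃ₐ[F] K) (X : ℝ) : ℂ :=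
  ∑' x, classTerm W S φ c σ X x

/-- The proportion of the class of `σ` in the Galois group. -/
noncomputable def density (σ : K ≃ₐ[F] K) : ℝ :=
  (Nat.card {τ : K ≃ₐ[F] K // IsConj σ τ} : ℝ) / Nat.card (K ≃ₐ[F] K)

/-- `(1 / #Γ) ∑_σ χ(σ⁻¹) S_σ(X) / d(σ)`, `χ` the character of `ρ`. -/
noncomputable def twistedSum (W : WeierstrassCurve (𝓞 F)) (S : Finset (HeightOneSpectrum (𝓞 F)))
    (φ : HeightOneSpectrum (𝓞 F) → K ≃ₐ[F] K) (c : ℝ) {n : ℕ}
    (ρ : Representation ℂ (K ≃ₐ[F] K) (Fin n → ℂ)) (X : ℝ) : ℂ :=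
  ∑ σ : K ≃ₐ[F] K, ((Nat.card (K ≃ₐ[F] K) : ℂ)⁻¹ * ρ.character σ⁻¹) *
    (classSum W S φ c σ X / (density σ : ℂ))

/-- `(1 / #H) ∑_{σ ∈ H} S_σ(X) / d(σ)`. -/
noncomputable def fieldSum (W : WeierstrassCurve (𝓞 F)) (S : Finset (HeightOneSpectrum (𝓞 F)))
    (φ : HeightOneSpectrum (𝓞 F) → K ≃ₐ[F] K) (c : ℝ) (H : Subgroup (K ≃ₐ[F] K)) (X : ℝ) : ℂ :=
  ∑ σ : K ≃ₐ[F] K, (if σ ∈ H then (Nat.card H : ℂ)⁻¹ else 0) *
    (classSum W S φ c σ X / (density σ : ℂ))

/-- The dimension of the space of vectors of `ρ` fixed by `H`. -/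
noncomputable def fixedDim {n : ℕ} (ρ : Representation ℂ (K ≃ₐ[F] K) (Fin n → ℂ))
    (H : Subgroup (K ≃ₐ[F] K)) : ℕ :=
  Module.finrank ℂ (Representation.invariants (ρ.comp H.subtype))

theorem powerSum_eq (a b : ℤ) (j : ℕ) : powerSum a b j = Pool.Agent.Q286.EQ.pws a b j := by
  induction j using Nat.twoStepInduction with
  | zero => rfl
  | one => rfl
  | more j ih1 ih2 => rw [powerSum, Pool.Agent.Q286.EQ.pws, ih1, ih2]

theorem frobTrace_eq (W : WeierstrassCurve (𝓞 F)) (v : HeightOneSpectrum (𝓞 F)) :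
    frobTrace W v = Pool.Agent.W540.BE.trv W v := rfl

theorem q_eq (v : HeightOneSpectrum (𝓞 F)) : q v = Pool.Agent.W540.BE.nm F v := rfl

theorem kernel_eq (c u : ℝ) : kernel c u = Pool.Agent.Q286.RL.ker c u := rfl

theorem classTerm_eq (W : WeierstrassCurve (𝓞 F)) (S : Finset (HeightOneSpectrum (𝓞 F)))
    (φ : HeightOneSpectrum (𝓞 F) → K ≃ₐ[F] K) (c : ℝ) (σ : K ≃ₐ[F] K) (X : ℝ) :
    classTerm W S φ c σ X = Pool.Agent.Q286.EQ.fterm W S φ c σ (Real.log X) := by
  funext x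
  unfold classTerm Pool.Agent.Q286.EQ.fterm
  simp only [powerSum_eq, frobTrace_eq, q_eq, kernel_eq]
  split_ifs <;> rfl

omit [NumberField F] [NumberField K] in
theorem density_eq (σ : K ≃ₐ[F] K) : density σ = Pool.Agent.Q286.RL.cden σ := rfl

/-- **Leading terms from the classes of Frobenius elements.**

Let `K/F` be a Galois extension of number fields with group `Γ`, `W` a Weierstrass equation with
coefficients in the integers of `F` and discriminant `Δ`, `ρ_k` a complete system of irreducible complex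
representations of `Γ`, `n_k` the degree and `χ_k` the character of `ρ_k` (`∑ n_k² = #Γ`).  Let `S` be a
finite set of primes of `F` containing the divisors of `6 Δ`, and let `L_k` be a function which for
`Re s > 2` is the Euler product `L(E ⊗ ρ_k, s)`, with arbitrary polynomials, not zero at `q_v⁻¹`, as
factors at the primes of `S`, and which is meromorphic at the real points of `[1, 2]`.  Let `φ_v` be a
Frobenius element in `Γ` of the prime `v`, for each `v`.  Write `S_σ(X)` for the class sums, `d(σ)` for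
the proportion of the class of `σ` in `Γ`, and `b_k = ∏_{v ∈ S} B_{k,v}(q_v⁻¹)`.  Then:

1. `L_k` has a finite order `m_k` at `s = 1`; let `l_k ≠ 0` be its leading coefficient there.  There are
logarithms `r_k` of `l_k b_k` such that for each `c > π/2` the class sums converge absolutely and
`S_σ(X) = d(σ) (∑_k χ_k(σ) r_k - ∑_k χ_k(σ) m_k (log log X - κ_c)) + O(1 / log X)` for all `σ`.
2. For `c > π/2`, each `k`, each integer `R` and each `A ≠ 0`: `L_k` has order `R` and leading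
coefficient `A` at `s = 1` if and only if `exp(U_k(X)) (log X)^R` tends to `A b_k e^{R κ_c}`, where
`U_k(X) = (1 / #Γ) ∑_σ χ_k(σ⁻¹) S_σ(X) / d(σ)`.
3. For `c > π/2`, each subgroup `H` of `Γ`, each integer `R` and each `A ≠ 0`: the product
`∏_k L_k(s)^{dim ρ_k^H}`, which by the formalism of Artin is the L-function of `E` over the fixed field
of `H` if the `B_{k,v}` are the exact Euler factors (this identity is not part of the theorem), has order
`R` and leading coefficient `A` at `s = 1` if and only if `exp(V_H(X)) (log X)^R` tends to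
`A ∏_k b_k^{dim ρ_k^H} e^{R κ_c}`, where `V_H(X) = (1 / #H) ∑_{σ ∈ H} S_σ(X) / d(σ)`. -/
theorem result (F : Type) [Field F] [NumberField F] (K : Type) [Field K] [NumberField K]
    [Algebra F K] [IsGalois F K] (W : WeierstrassCurve (𝓞 F))
    (κ : Type) [Fintype κ] (n : κ → ℕ) (ρ : ∀ k, Representation ℂ (K ≃ₐ[F] K) (Fin (n k) → ℂ))
    (hirr : ∀ k, (ρ k).IsIrreducible) (hne : ∀ k l, k ≠ l → IsEmpty ((ρ k).Equiv (ρ l)))
    (hsum : ∑ k, n k ^ 2 = Nat.card (K ≃ₐ[F] K))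
    (S : Finset (HeightOneSpectrum (𝓞 F))) (hS : ∀ v ∉ S, 6 * W.Δ ∉ v.asIdeal)
    (B : κ → HeightOneSpectrum (𝓞 F) → ℂ[X]) (hB : ∀ k, ∀ v ∉ S, IsEulerFactor W (ρ k) v (B k v))
    (hB0 : ∀ k, ∀ v ∈ S, (B k v).eval ((q v : ℂ) ^ (-(1 : ℂ))) ≠ 0)
    (L : κ → ℂ → ℂ) (hmer : ∀ k, ∀ x : ℝ, 1 ≤ x → x ≤ 2 → MeromorphicAt (L k) (x : ℂ))
    (hL : ∀ k, ∀ s : ℂ, 2 < s.re → L k s = eulerProduct (B k) s)
    (φ : HeightOneSpectrum (𝓞 F) → K ≃ₐ[F] K) (hφ : ∀ v, IsFrobenius v (φ v)) :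
    (∃ (m : κ → ℤ) (r : κ → ℂ), (∀ k, meromorphicOrderAt (L k) 1 = m k ∧
        exp (r k) = meromorphicTrailingCoeffAt (L k) 1 * excluded S (B k)) ∧
      ∀ c : ℝ, Real.pi / 2 < c → ∃ C X₀ : ℝ, ∀ X ≥ X₀, ∀ σ : K ≃ₐ[F] K,
        Summable (classTerm W S φ c σ X) ∧
        ‖classSum W S φ c σ X - (density σ : ℂ) * ((∑ k, (ρ k).character σ * r k) -
          (∑ k, (ρ k).character σ * m k) * (Real.log (Real.log X) - kappa c))‖ ≤
            C / Real.log X) ∧
    (∀ c : ℝ, Real.pi / 2 < c → ∀ k, ∀ (R : ℤ) (A : ℂ), A ≠ 0 →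
      ((meromorphicOrderAt (L k) 1 = R ∧ meromorphicTrailingCoeffAt (L k) 1 = A) ↔
        Tendsto (fun X : ℝ => exp (twistedSum W S φ c (ρ k) X) * (Real.log X : ℂ) ^ R) atTop
          (𝓝 (A * excluded S (B k) * exp (R * kappa c))))) ∧
    (∀ c : ℝ, Real.pi / 2 < c → ∀ H : Subgroup (K ≃ₐ[F] K), ∀ (R : ℤ) (A : ℂ), A ≠ 0 →
      ((meromorphicOrderAt (fun s => ∏ k, L k s ^ fixedDim (ρ k) H) 1 = R ∧
          meromorphicTrailingCoeffAt (fun s => ∏ k, L k s ^ fixedDim (ρ k) H) 1 = A) ↔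
        Tendsto (fun X : ℝ => exp (fieldSum W S φ c H X) * (Real.log X : ℂ) ^ R) atTop
          (𝓝 (A * (∏ k, excluded S (B k) ^ fixedDim (ρ k) H) * exp (R * kappa c))))) := by
  have hfam : Pool.Agent.Q286.RL.Fam ρ := ⟨hirr, hne, hsum⟩
  obtain ⟨m, r, hm, hr, hlaw⟩ := Pool.Agent.Q286.EQ.lead_law
    (fun v hv => ⟨fun h => hS v hv (v.asIdeal.mul_mem_right _ h),
      fun h => hS v hv (v.asIdeal.mul_mem_left _ h)⟩) hfam φ B
    (fun k v hv z => hB k v hv (φ v) (hφ v) z) hB0 hmer hL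
  have hb : ∀ k, excluded S (B k) ≠ 0 := fun k => Finset.prod_ne_zero_iff.2 fun v hv => hB0 k v hv
  have hmer1 : ∀ k, MeromorphicAt (L k) 1 := fun k => by
    have := hmer k 1 le_rfl (by norm_num)
    simpa using this
  -- composition with the logarithm
  have hcomp : ∀ (f : ℝ → ℂ) (a : ℂ), Tendsto f atTop (𝓝 a) ↔
      Tendsto (fun X : ℝ => f (Real.log X)) atTop (𝓝 a) := by
    intro f a
    constructor
    · intro h
      exact h.comp Real.tendsto_log_atTop
    · intro h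
      refine (h.comp Real.tendsto_exp_atTop).congr fun T => ?_
      simp only [Function.comp_apply, Real.log_exp]
  refine ⟨⟨m, r, fun k => ⟨hm k, hr k⟩, fun c hc => ?_⟩, fun c hc k R A hA => ?_,
    fun c hc H R A hA => ?_⟩
  · obtain ⟨C, T₀, -, -, h⟩ := hlaw c hc
    refine ⟨C, max (Real.exp T₀) 1, fun X hX σ => ?_⟩
    have h0 : 0 < X := lt_of_lt_of_le one_pos ((le_max_right _ _).trans hX)
    have h1 : T₀ ≤ Real.log X := (Real.le_log_iff_exp_le h0).2 ((le_max_left _ _).trans hX)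
    have h2 := h (Real.log X) h1 σ
    unfold classSum
    rw [classTerm_eq, density_eq]
    rw [Pool.Agent.Q286.EQ.kapc_eq] at h2
    exact h2
  · obtain ⟨C, T₀, -, -, h⟩ := hlaw c hc
    have h1 := Pool.Agent.Q286.EQ.eqv (S := fun σ T => ∑' x, Pool.Agent.Q286.EQ.fterm W S φ c σ T x)
      (fun T hT σ => (h T hT σ).2) hmer1 hm hb hr _ (Pi.single k 1)
      (Pool.Agent.Q286.EQ.weight_irr hfam k) R hA
    have e1 : (fun s => ∏ l, L l s ^ (Pi.single k (1 : ℤ) : κ → ℤ) l) = L k := by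
      funext s
      rw [Finset.prod_eq_single k]
      · simp
      · intro l _ hl
        rw [Pi.single_eq_of_ne hl, zpow_zero]
      · intro h; exact absurd (Finset.mem_univ _) h
    have e2 : ∏ l, excluded S (B l) ^ (Pi.single k (1 : ℤ) : κ → ℤ) l = excluded S (B k) := by
      rw [Finset.prod_eq_single k]
      · simp
      · intro l _ hl
        rw [Pi.single_eq_of_ne hl, zpow_zero]
      · intro h; exact absurd (Finset.mem_univ _) h
    rw [e1, e2, hcomp, Pool.Agent.Q286.EQ.kapc_eq] at h1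
    rw [h1]
    have e3 : (fun X : ℝ => exp (twistedSum W S φ c (ρ k) X) * (Real.log X : ℂ) ^ R) =
        fun X : ℝ => exp (∑ σ, ((Nat.card (K ≃ₐ[F] K) : ℂ)⁻¹ * (ρ k).character σ⁻¹) *
          ((∑' x, Pool.Agent.Q286.EQ.fterm W S φ c σ (Real.log X) x) /
            ((Pool.Agent.Q286.RL.cden σ : ℝ) : ℂ))) * ((Real.log X : ℝ) : ℂ) ^ R := by
      funext X
      unfold twistedSum classSum
      simp only [classTerm_eq, density_eq]
    rw [e3]
    exact Iff.rfl
  · obtain ⟨C, T₀, -, -, h⟩ := hlaw c hc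
    have h1 := Pool.Agent.Q286.EQ.eqv (S := fun σ T => ∑' x, Pool.Agent.Q286.EQ.fterm W S φ c σ T x)
      (fun T hT σ => (h T hT σ).2) hmer1 hm hb hr _ (fun k => ((fixedDim (ρ k) H : ℕ) : ℤ))
      (Pool.Agent.Q286.EQ.weight_sub H) R hA
    simp only [zpow_natCast] at h1
    rw [hcomp, Pool.Agent.Q286.EQ.kapc_eq] at h1
    rw [h1]
    have e3 : (fun X : ℝ => exp (fieldSum W S φ c H X) * (Real.log X : ℂ) ^ R) =
        fun X : ℝ => exp (∑ σ, (if σ ∈ H then (Nat.card H : ℂ)⁻¹ else 0) *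
          ((∑' x, Pool.Agent.Q286.EQ.fterm W S φ c σ (Real.log X) x) /
            ((Pool.Agent.Q286.RL.cden σ : ℝ) : ℂ))) * ((Real.log X : ℝ) : ℂ) ^ R := by
      funext X
      unfold fieldSum classSum
      simp only [classTerm_eq, density_eq]
    rw [e3]
    exact Iff.rfl

end Pool.Agent.Results.MP_9ab903_nt.LeadingTermsFromClasses
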