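import Pool.Agent.Y698.SG.Fj
import Pool.Agent.Y698.SG.Ug
import Pool.Agent.Y698.SG.Uj
import Pool.Agent.Y698.SG.Dwc
import Pool.Agent.Y698.SG.Ebb
import Pool.Agent.Q283.XF.MatD

/-!
# Prime twists of every quadratic twist of `X_0(49)` over the fields of degree `2 ^ n` inside `ℚ(ζ_r)`

`r` is a prime number with `r ≡ 1 mod 4` which is inert in `ℚ(√-7)`, and `K` is the subfield of degree
`2 ^ n` of `ℚ(ζ_r)`, for any `n ≥ 1` such that `2 ^ n` divides `r - 1`. `E_D` is the quadratic twist by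
`D` of `X_0(49) : y² + x y = x³ - x² - 2 x - 1`. `D` is ANY product of distinct primes `≡ 1 mod 4`
different from `r` such that the primes of `D` which split in `ℚ(√-7)` split completely in `K`, and the
Frobenius elements in `Gal(K/ℚ)` of those which are inert in `ℚ(√-7)` have order one or two (no
condition for the inert primes if `K` is quadratic). No condition is put on the rank, on `Ш` or on the
`L`-function of `E_D`.

* Among the primes `p ≡ 1 mod 4` which split in `ℚ(√-7)` and completely in `K`, the proportion of those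
  with `p ∤ D`, `E_{Dp}(K)` finite and `Ш(E_{Dp}/K)[2] = 0` tends to the proportion of the nonsingular
  matrices among the `2 ^ (m + 1)` matrices over `𝔽₂` obtained from the matrix `mat` of `D` (its size `m`
  is the number of the primes of `D` which split in `ℚ(√-7)`) by adding a vector `v` to the diagonal and
  bordering by `v` and a corner. It is not zero.
* Among the primes `p ≡ 1 mod 4`, `p ≠ r`, inert in `ℚ(√-7)` with Frobenius element of order one or two in
  `K`, the same proportion is that of the nonsingular matrices `mat + diag v`; it is not zero.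
* The other primes `p ≡ 1 mod 4`, `p ∤ r D` never have this property.
* For all these `p` the two-part of the Birch and Swinnerton-Dyer formula holds for `E_{Dp}` over `K`:
  `L(E_{Dp}/K, s)` is entire, `L(E_{Dp}/K, 1) ≠ 0`, the equation is minimal everywhere, the order of the
  torsion subgroup is twice an odd number, `∏ c_v` is a given power of two, the 2-primary part of
  `Ш` is zero, and the quotient `√|Disc K| #E(K)_tors² L(E/K, 1) / (Ω ∏ c_v)` is an algebraic number
  which is a unit at all the primes above two.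

The criterion for a single `D` and the formula modulo the primes above two are starting results
(helper698 and its team, `FormulaModTwoAllTwists` and `Pool/Agent/Y698`); Chebotarev's theorem is the one of
`Pool/Agent/W401/Cheb`. New here (helper283, `Pool/Agent/Q283/XF`): the equidistribution of the symbols
of `p`, among them the quartic symbol of `-7` (an extension which is not abelian over `ℚ`), inside the
classes of primes that `K` allows; the effect of `D ↦ D p` on the matrix; positivity for every `D`.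
-/

set_option autoImplicit false

open NumberField NumberField.InfinitePlace IsDedekindDomain WeierstrassCurve MeasureTheory

namespace Pool.Agent.Results.MP_9ab903_nt.PrimeTwistsTwoPowerFields

open Pool.Agent.TH841.NF.D (Sha)
open Pool.Agent.TH841.SH.D (Pt)

/-- For `D ≡ 1 mod 4` the quadratic twist by `D` of the elliptic curve
`X_0(49) : y² + x y = x³ - x² - 2 x - 1`:
the curve `y² + x y = x³ - (3 D + 1) / 4 x² - 2 D² x - D³`. -/
def twist (D : ℕ) : WeierstrassCurve ℤ := ⟨1, -((3 * D + 1) / 4), 0, -2 * D ^ 2, -D ^ 3⟩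

/-- The curve given by the equation of `W` over the ring `R`. -/
abbrev base (W : WeierstrassCurve ℤ) (R : Type) [CommRing R] : WeierstrassCurve R :=
  W.map (Int.castRingHom R)

section

variable {K : Type} [Field K] [NumberField K]

/-- The equation is minimal at the finite place `v` of `K`: no change of variables over `K` that
keeps the coefficients integral at `v` decreases the order of the discriminant. -/
def MinimalAt (W : WeierstrassCurve K) (v : HeightOneSpectrum (𝓞 K)) : Prop :=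
  ∀ C : VariableChange K, v.valuation K (C • W).a₁ ≤ 1 → v.valuation K (C • W).a₂ ≤ 1 →
    v.valuation K (C • W).a₃ ≤ 1 → v.valuation K (C • W).a₄ ≤ 1 → v.valuation K (C • W).a₆ ≤ 1 →
    v.valuation K (C • W).Δ ≤ v.valuation K W.Δ

/-- `W⁰(K_v)`, the group of the points of `W` over the completion `K_v` with nonsingular reduction:
the point at infinity and the points `(x, y)` where `x` is not integral, or one of the partial
derivatives of `y² + a₁ x y + a₃ y - x³ - a₂ x² - a₄ x - a₆` is a unit at `(x, y)`.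
Here `Pt W K_v` is the group of the points of `W` over `K_v`. -/
noncomputable def nonsing (W : WeierstrassCurve K) (v : HeightOneSpectrum (𝓞 K)) :
    AddSubgroup (Pt W (v.adicCompletion K)) :=
  AddSubgroup.closure {P | ∀ x y h, P = Affine.Point.some x y h →
    1 < Valued.v x ∨
    Valued.v ((W.baseChange (v.adicCompletion K)).a₁ * y -
      (3 * x ^ 2 + 2 * (W.baseChange (v.adicCompletion K)).a₂ * x +
        (W.baseChange (v.adicCompletion K)).a₄)) = 1 ∨
    Valued.v (2 * y + (W.baseChange (v.adicCompletion K)).a₁ * x +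
      (W.baseChange (v.adicCompletion K)).a₃) = 1}

/-- The Tamagawa number `c_v = [W(K_v) : W⁰(K_v)]` of a minimal equation. -/
noncomputable def c (W : WeierstrassCurve K) (v : HeightOneSpectrum (𝓞 K)) : ℕ :=
  (nonsing W v).index

/-- The product of the Tamagawa numbers. -/
noncomputable def Tam (W : WeierstrassCurve K) : ℕ := ∏ᶠ v : HeightOneSpectrum (𝓞 K), c W v

/-- The 2-primary part of the Tate-Shafarevich group over `K`. -/
def Sha2 (W : WeierstrassCurve K) : Set (Sha W) := {x | ∃ n : ℕ, 2 ^ n • x = 0}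

end

/-- `4 x³ + b₂ x² + 2 b₄ x + b₆ = (2 y + a₁ x + a₃)²`. -/
def cubic (W : WeierstrassCurve ℤ) {R : Type} [CommRing R] (x : R) : R :=
  4 * x ^ 3 + W.b₂ * x ^ 2 + 2 * W.b₄ * x + W.b₆

/-- `∫_{W(ℝ)} |ω|` with `ω = dx / (2 y + a₁ x + a₃)`, as an integral over `x`: two real points lie
over each `x` with `cubic x > 0`. -/
noncomputable def realPeriod (W : WeierstrassCurve ℤ) : ℝ :=
  2 * ∫ x in {x : ℝ | 0 < cubic W x}, 1 / √(cubic W x)

/-- `2 ∫_{W(ℂ)} |ω ∧ ω̄|`, where `|ω ∧ ω̄| = du dv` in a local parameter `z = u + i v` with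
`dz = ω`, as an integral over `x`: two points lie over a general `x`, and `|ω ∧ ω̄|` is the area
element of the plane of `x` divided by `|cubic x|`. -/
noncomputable def complexPeriod (W : WeierstrassCurve ℤ) : ℝ := 2 * (2 * ∫ x : ℂ, 1 / ‖cubic W x‖)

/-- `Ω_{W/K}`. -/
noncomputable def Omega (K : Type) [Field K] [NumberField K] (W : WeierstrassCurve ℤ) : ℝ :=
  realPeriod W ^ nrRealPlaces K * complexPeriod W ^ nrComplexPlaces K

open Classical in
/-- The order of the torsion subgroup of `W(K)`. -/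
noncomputable def torsOrder (K : Type) [Field K] [NumberField K] (W : WeierstrassCurve ℤ) : ℕ :=
  Nat.card (AddCommGroup.torsion (base W K).toAffine.Point)

/-- The order of the Tate-Shafarevich group predicted by the formula, for a curve with an equation that
is minimal at all finite places and the value `l` of its L-function at `s = 1`:
`√|Disc K| #W(K)_tors² l / (Ω_{W/K} ∏ c_v)`. -/
noncomputable def anOrder (K : Type) [Field K] [NumberField K] (W : WeierstrassCurve ℤ) (l : ℂ) : ℂ :=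
  l * (√|(discr K : ℝ)| : ℝ) * (torsOrder K W : ℂ) ^ 2 / ((Omega K W : ℝ) * (Tam (base W K) : ℂ))

open Classical in
/-- `1` if `m` is not a square modulo `p`, and `0` if it is -/
noncomputable def nonsq (p m : ℕ) : ZMod 2 := if IsSquare (m : ZMod p) then 0 else 1

open Classical in
/-- `1` if `-7` is not a fourth power modulo `p`, and `0` if it is -/
noncomputable def nonfourth (p : ℕ) : ZMod 2 := if ∃ y : ZMod p, y ^ 4 = -7 then 0 else 1

/-- The matrix over the field with two elements, with rows and columns indexed by `P`: the entry at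
`(i, j)` is `nonsq i j` for `i ≠ j`, and the entry at `(i, i)` is the sum of `nonfourth i` and of the
`nonsq i l` for all the `l ≠ i` in `Q` and `P`. -/
noncomputable def mat (Q P : Finset ℕ) : Matrix P P (ZMod 2) := Matrix.of fun i j =>
  if i = j then nonfourth i + ∑ q ∈ Q, nonsq i q + ∑ p ∈ P.erase i, nonsq i p else nonsq i j

/-- `E_D(K)` is finite and `Ш(E_D/K)` has no element of order two. -/
def Good (K : Type) [Field K] [NumberField K] (D : ℕ) : Prop :=
  Finite (base (twist D) K).toAffine.Point ∧ ∀ x : Sha (base (twist D) K), x + x = 0 → x = 0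

/-- The equation of `E_D` is minimal at all finite places of `K`, the order of the torsion subgroup of
`E_D(K)` is twice an odd number, the 2-primary part of `Ш(E_D/K)` is zero, the product of the Tamagawa
numbers is `2 ^ t`, `L(E_D/K, s)` is entire and not zero at `s = 1`, and the analytic order
`√|Disc K| #E_D(K)_tors² L(E_D/K, 1) / (Ω ∏ c_v)` and its inverse are algebraic numbers which become
integral after multiplication by odd integers. -/
def TwoPartFormula (K : Type) [Field K] [NumberField K] (D t : ℕ) : Prop :=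
  (∀ v : HeightOneSpectrum (𝓞 K), MinimalAt (base (twist D) K) v) ∧
  (∃ t : ℕ, Odd t ∧ torsOrder K (twist D) = 2 * t) ∧
  Sha2 (base (twist D) K) = {0} ∧
  Tam (base (twist D) K) = 2 ^ t ∧
  ∃ Λ : ℂ → ℂ, Differentiable ℂ Λ ∧
    (∀ s : ℂ, 2 < s.re → Λ s = (base (twist D) K).LSeries s) ∧ Λ 1 ≠ 0 ∧
    (∃ m : ℤ, Odd m ∧ _root_.IsIntegral ℤ ((m : ℂ) * anOrder K (twist D) (Λ 1))) ∧
    ∃ m : ℤ, Odd m ∧ _root_.IsIntegral ℤ ((m : ℂ) * (anOrder K (twist D) (Λ 1))⁻¹)

/-- The primes `p ≡ 1 mod 4` which split in `ℚ(√-7)` and completely in the field of degree `2 ^ n`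
inside `ℚ(ζ_r)`. -/
def SplitPrime (r n p : ℕ) : Prop :=
  p.Prime ∧ p % 4 = 1 ∧ IsSquare (-7 : ZMod p) ∧ ∃ y : ZMod r, y ^ 2 ^ n = (p : ZMod r)

/-- The primes `p ≡ 1 mod 4`, `p ≠ r`, inert in `ℚ(√-7)`, with Frobenius element of order one or two in
the field of degree `2 ^ n` inside `ℚ(ζ_r)`. -/
def InertPrime (r n p : ℕ) : Prop :=
  p.Prime ∧ p % 4 = 1 ∧ ¬ IsSquare (-7 : ZMod p) ∧ p ≠ r ∧
    ∃ y : ZMod r, y ^ 2 ^ n = (p : ZMod r) ^ 2

/-- `A + diag v`, bordered by `v` and the corner `d`. -/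
def bordered {S : Finset ℕ} (A : Matrix S S (ZMod 2)) (v : S → ZMod 2) (d : ZMod 2) :
    Matrix (S ⊕ Unit) (S ⊕ Unit) (ZMod 2) :=
  Matrix.fromBlocks (A + Matrix.diagonal v) (Matrix.of fun i _ => v i) (Matrix.of fun _ j => v j)
    (Matrix.of fun _ _ => d)

/-- The proportion of the pairs `(v, d)` such that the bordered matrix is not singular. -/
noncomputable def splitProportion {S : Finset ℕ} (A : Matrix S S (ZMod 2)) : ℝ :=
  (Nat.card {x : (S → ZMod 2) × ZMod 2 // (bordered A x.1 x.2).det ≠ 0} : ℝ) /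
    2 ^ (Fintype.card S + 1)

/-- The proportion of the vectors `v` such that `A + diag v` is not singular. -/
noncomputable def inertProportion {S : Finset ℕ} (A : Matrix S S (ZMod 2)) : ℝ :=
  (Nat.card {v : S → ZMod 2 // (A + Matrix.diagonal v).det ≠ 0} : ℝ) / 2 ^ Fintype.card S

open Classical in
/-- The proportion of the members of the class `A` up to `X` which have the property `T`. -/
noncomputable def proportion (A T : ℕ → Prop) (X : ℕ) : ℝ :=
  (((Finset.range (X + 1)).filter fun p => A p ∧ T p).card : ℝ) /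
    (((Finset.range (X + 1)).filter fun p => A p).card : ℝ)

section proof

open Pool.Agent.Y698

lemma base_eq {D j : ℕ} (hj : D = 1 + 4 * j) (K : Type) [Field K] : base (twist D) K = AX K j :=
  twZ_map hj K

lemma cubic_eq {D j : ℕ} (hj : D = 1 + 4 * j) {R : Type} [CommRing R] (x : R) :
    cubic (twist D) x = psD (1 + 4 * j) x := by
  have h1 : (3 * (D : ℤ) + 1) / 4 = 1 + 3 * j := by
    rw [hj]
    push_cast
    omega
  unfold cubic twist WeierstrassCurve.b₂ WeierstrassCurve.b₄ WeierstrassCurve.b₆ psD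
  simp only
  rw [h1, hj]
  push_cast
  ring

lemma real_eq {D j : ℕ} (hj : D = 1 + 4 * j) : realPeriod (twist D) =
    ∫ x in {x : ℝ | 0 < psD (1 + 4 * j) x}, 2 / Real.sqrt (psD (1 + 4 * j) x) := by
  unfold realPeriod
  simp only [cubic_eq hj]
  rw [← integral_const_mul]
  congr 1
  funext x
  ring

lemma cplx_eq {D j : ℕ} (hj : D = 1 + 4 * j) : complexPeriod (twist D) =
    ∫ x : ℂ, 4 / ‖psD (1 + 4 * j) x‖ := by
  unfold complexPeriod
  simp only [cubic_eq hj]
  rw [← mul_assoc, ← integral_const_mul]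
  congr 1
  funext x
  ring

section criterion

variable {r n : ℕ} {Q P : Finset ℕ} {D : ℕ}

open Pool.Agent.Y698 Pool.Agent.Y698.SG in
/-- the criterion -/
theorem crit (hr : r.Prime) (h4 : r % 4 = 1) (h7 : ¬ IsSquare (-7 : ZMod r))
    (hn : 1 ≤ n) (K : IntermediateField ℚ (CyclotomicField r ℚ))
    (hK : Module.finrank ℚ K = 2 ^ n)
    (hQ : ∀ q ∈ Q, q.Prime ∧ q % 4 = 1 ∧ ¬ IsSquare (-7 : ZMod q) ∧ q ≠ r)
    (hP : ∀ p ∈ P, p.Prime ∧ p % 4 = 1 ∧ IsSquare (-7 : ZMod p))
    (hD : D = (∏ q ∈ Q, q) * ∏ p ∈ P, p) :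
    (Good K D ↔ (∀ q ∈ Q, ∃ y : ZMod r, y ^ 2 ^ n = (q : ZMod r) ^ 2) ∧
      (∀ p ∈ P, ∃ y : ZMod r, y ^ 2 ^ n = (p : ZMod r)) ∧ (mat Q P).det ≠ 0) ∧
    ((∀ q ∈ Q, ∃ y : ZMod r, y ^ 2 ^ n = (q : ZMod r) ^ 2) ∧
      (∀ p ∈ P, ∃ y : ZMod r, y ^ 2 ^ n = (p : ZMod r)) ∧ (mat Q P).det ≠ 0 →
      TwoPartFormula K D (1 + (Q.card + 2 * P.card) * 2 ^ n)) := by
  have : Fact r.Prime := ⟨hr⟩
  have hM : IsCyclotomicExtension {r} ℚ (CyclotomicField r ℚ) := Pool.Agent.Y698.cyc_inst r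
  have hN : Normal ℚ K := (Pool.Agent.Y698.isGalK r K (M := CyclotomicField r ℚ)).to_normal
  have hir : Pool.Agent.Y698.Inq r := ⟨hr, h4, h7⟩
  have hQ' : ∀ q ∈ Q, Pool.Agent.Y698.Inq q ∧ q ≠ r := fun q hq =>
    ⟨⟨(hQ q hq).1, (hQ q hq).2.1, (hQ q hq).2.2.1⟩, (hQ q hq).2.2.2⟩
  have hP' : ∀ p ∈ P, Pool.Agent.Y698.SG.Spl p := fun p hp => ⟨(hP p hp).1, (hP p hp).2.1, (hP p hp).2.2⟩
  have hPr : ∀ p ∈ P, p ≠ r := by
    rintro p hp rfl
    exact h7 (hP p hp).2.2
  have hgp : ∀ q ∈ Q ∪ P, Pool.Agent.Y698.SG.Gp q ∧ q ≠ r := by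
    intro q hq
    rcases Finset.mem_union.1 hq with h | h
    · exact ⟨Pool.Agent.Y698.SG.Gp.of_inq (hQ' q h).1, (hQ' q h).2⟩
    · exact ⟨Pool.Agent.Y698.SG.Gp.of_spl (hP' q h), hPr q h⟩
  have hdisj : Disjoint Q P := Pool.Agent.Y698.SG.disj_QP (fun q hq => (hQ' q hq).1) hP'
  have hDu : D = ∏ q ∈ Q ∪ P, q := by rw [hD, Finset.prod_union hdisj]
  have hm4 := Pool.Agent.Y698.prod_mod_four (S := Q ∪ P) fun q hq => (hgp q hq).1.m4
  obtain ⟨j, hj⟩ : ∃ j, ∏ q ∈ Q ∪ P, q = 1 + 4 * j := ⟨(∏ q ∈ Q ∪ P, q) / 4, by omega⟩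
  have hDj : D = 1 + 4 * j := by rw [hDu, hj]
  have han : ∀ l : ℂ, anOrder K (twist D) l = Pool.Agent.Y698.SG.quoT K j l := by
    intro l
    unfold anOrder torsOrder Omega
    rw [base_eq hDj, real_eq hDj, cplx_eq hDj]
    unfold Pool.Agent.Y698.SG.quoT Pool.Agent.Y698.SG.tnum
    have hT : Tam (Pool.Agent.Y698.AX K j) = ∏ᶠ v, Pool.Agent.Y698.tam (Pool.Agent.Y698.AX K j) v := rfl
    rw [hT]
    generalize (∏ᶠ v, Pool.Agent.Y698.tam (Pool.Agent.Y698.AX K j) v : ℕ) = t
    push_cast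
    rfl
  have hst : torsOrder K (twist D) = Pool.Agent.Y698.SG.tnum (Pool.Agent.Y698.AX K j) := by
    unfold torsOrder Pool.Agent.Y698.SG.tnum
    rw [base_eq hDj]
  have heq := Pool.Agent.Y698.SG.equiv_all (CyclotomicField r ℚ) K hK hn hir hQ' hP' hj
  obtain ⟨Λ, h1, h2, h3⟩ := Pool.Agent.Y698.SG.level_all (CyclotomicField r ℚ) K hK hn hir hQ' hP' hj
  unfold Good TwoPartFormula
  simp only [han, hst]
  rw [base_eq hDj]
  refine ⟨heq.symm, fun hC => ?_⟩
  obtain ⟨k, rfl⟩ : ∃ k, n = k + 1 := ⟨n - 1, by omega⟩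
  have hdt : Pool.Agent.Y698.SG.Dt r (k + 1) Q P :=
    ⟨hn, hir, fun q hq => ⟨(hQ' q hq).1, (hQ' q hq).2, hC.1 q hq⟩,
      fun p hp => ⟨hP' p hp, hC.2.1 p hp⟩, hC.2.2⟩
  refine ⟨fun v => Pool.Agent.Y698.SG.minimal_E (CyclotomicField r ℚ) K h7 hgp hj v,
    Pool.Agent.Y698.SG.tnum_AX (CyclotomicField r ℚ) K h7 j, ?_,
    Pool.Agent.Y698.SG.tam_prodE (CyclotomicField r ℚ) K hK hdt hj, Λ, h1, h2, ?_,
    Pool.Agent.Y698.int_of_val fun Γ _ v hv => (h3 Γ v hv).1, ?_⟩
  · apply Set.eq_singleton_iff_unique_mem.2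
    refine ⟨⟨0, smul_zero _⟩, ?_⟩
    rintro x ⟨l, hl⟩
    exact Pool.Agent.Y698.SG.sha_two_powE (CyclotomicField r ℚ) K hK hdt hj x l hl
  · intro h0
    refine Pool.Agent.Y698.SG.exists_val2 fun Γ _ v hv => ?_
    have h5 := ((h3 Γ v hv).2).2 hC
    rw [h0] at h5
    unfold Pool.Agent.Y698.SG.quoT at h5
    rw [zero_mul, zero_mul, zero_div, map_zero] at h5
    exact zero_ne_one h5
  · exact Pool.Agent.Y698.int_of_val fun Γ _ v hv => by
      rw [map_inv₀, ((h3 Γ v hv).2).2 hC, inv_one]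

end criterion

end proof

/-- **Prime twists of every quadratic twist of `X_0(49)` over the fields of degree `2 ^ n`.** -/
theorem result {r n : ℕ} (hr : r.Prime) (h4 : r % 4 = 1) (h7 : ¬ IsSquare (-7 : ZMod r))
    (hn : 1 ≤ n) (K : IntermediateField ℚ (CyclotomicField r ℚ))
    (hK : Module.finrank ℚ K = 2 ^ n)
    (Q : Finset ℕ) (hQ : ∀ q ∈ Q, InertPrime r n q)
    (P : Finset ℕ) (hP : ∀ p ∈ P, SplitPrime r n p)
    (D : ℕ) (hD : D = (∏ q ∈ Q, q) * ∏ p ∈ P, p) :
    0 < splitProportion (mat Q P) ∧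
    Filter.Tendsto (proportion (SplitPrime r n) fun p => ¬ p ∣ D ∧ Good K (D * p)) Filter.atTop
      (nhds (splitProportion (mat Q P))) ∧
    0 < inertProportion (mat Q P) ∧
    Filter.Tendsto (proportion (InertPrime r n) fun p => ¬ p ∣ D ∧ Good K (D * p)) Filter.atTop
      (nhds (inertProportion (mat Q P))) ∧
    (∀ p : ℕ, SplitPrime r n p → ¬ p ∣ D → Good K (D * p) →
      TwoPartFormula K (D * p) (1 + (Q.card + 2 * (P.card + 1)) * 2 ^ n)) ∧
    (∀ p : ℕ, InertPrime r n p → ¬ p ∣ D → Good K (D * p) →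
      TwoPartFormula K (D * p) (1 + (Q.card + 1 + 2 * P.card) * 2 ^ n)) ∧
    (∀ p : ℕ, p.Prime → p % 4 = 1 → ¬ p ∣ r * D → Good K (D * p) →
      SplitPrime r n p ∨ InertPrime r n p) := by
  classical
  have hQ1 : ∀ q ∈ Q, q.Prime ∧ q % 4 = 1 ∧ ¬ IsSquare (-7 : ZMod q) ∧ q ≠ r := fun q hq =>
    ⟨(hQ q hq).1, (hQ q hq).2.1, (hQ q hq).2.2.1, (hQ q hq).2.2.2.1⟩
  have hP1 : ∀ p ∈ P, p.Prime ∧ p % 4 = 1 ∧ IsSquare (-7 : ZMod p) := fun p hp =>
    ⟨(hP p hp).1, (hP p hp).2.1, (hP p hp).2.2.1⟩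
  have hQP : ∀ q ∈ Q ∪ P, q.Prime ∧ q % 4 = 1 := by
    intro q hq
    rcases Finset.mem_union.1 hq with h | h
    · exact ⟨(hQ q h).1, (hQ q h).2.1⟩
    · exact ⟨(hP q h).1, (hP q h).2.1⟩
  have hdisj : Disjoint Q P := by
    rw [Finset.disjoint_left]
    intro q hq hp
    exact (hQ q hq).2.2.1 (hP q hp).2.2.1
  have hDu : D = ∏ q ∈ Q ∪ P, q := by rw [hD, Finset.prod_union hdisj]
  have hdvd : ∀ p : ℕ, p.Prime → (p ∣ D ↔ p ∈ Q ∪ P) := by
    intro p hp
    rw [hDu, Prime.dvd_finsetProd_iff hp.prime]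
    constructor
    · rintro ⟨q, hq, hd⟩
      rwa [(Nat.prime_dvd_prime_iff_eq hp (hQP q hq).1).1 hd]
    · intro h
      exact ⟨p, h, dvd_rfl⟩
  have hbase : Q283.XF.Base (Q ∪ P) r := by
    refine ⟨hr, ?_, ?_, ?_, ?_⟩
    · rintro rfl; norm_num at h4
    · rintro rfl; norm_num at h4
    · intro h
      rcases Finset.mem_union.1 h with h | h
      · exact (hQ r h).2.2.2.1 rfl
      · exact h7 (hP r h).2.2.1
    · intro q hq
      obtain ⟨h1, h2⟩ := hQP q hq
      refine ⟨h1, ?_, ?_⟩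
      · rintro rfl; norm_num at h2
      · rintro rfl; norm_num at h2
  have hGp : ∀ q : ℕ, q.Prime → q % 4 = 1 → Pool.Agent.Y698.SG.Gp q := by
    intro q h1 h2
    by_cases h : IsSquare (-7 : ZMod q)
    · exact Pool.Agent.Y698.SG.Gp.of_spl ⟨h1, h2, h⟩
    · exact Pool.Agent.Y698.SG.Gp.of_inq ⟨h1, h2, h⟩
  have hmat : ∀ Q P : Finset ℕ, Pool.Agent.Y698.SG.mat Q P = mat Q P := fun _ _ => rfl
  -- the two kinds of primes
  have hs1 : ∀ p, p.Prime → p % 4 = 1 → IsSquare (-7 : ZMod p) → ¬ p ∣ D →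
      p ∉ P ∧ (∀ x ∈ insert p P, x.Prime ∧ x % 4 = 1 ∧ IsSquare (-7 : ZMod x)) ∧
      D * p = (∏ q ∈ Q, q) * ∏ x ∈ insert p P, x := by
    intro p hp hp4 hp7 hpD
    have hpP : p ∉ P := fun h => hpD ((hdvd p hp).2 (Finset.mem_union_right _ h))
    refine ⟨hpP, ?_, ?_⟩
    · intro x hx
      rcases Finset.mem_insert.1 hx with rfl | h
      · exact ⟨hp, hp4, hp7⟩
      · exact hP1 x h
    · rw [Finset.prod_insert hpP, hD]; ring
  have hi1 : ∀ p, p.Prime → p % 4 = 1 → ¬ IsSquare (-7 : ZMod p) → p ≠ r → ¬ p ∣ D →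
      p ∉ Q ∧ (∀ x ∈ insert p Q, x.Prime ∧ x % 4 = 1 ∧ ¬ IsSquare (-7 : ZMod x) ∧ x ≠ r) ∧
      D * p = (∏ q ∈ insert p Q, q) * ∏ x ∈ P, x := by
    intro p hp hp4 hp7 hpr hpD
    have hpP : p ∉ Q := fun h => hpD ((hdvd p hp).2 (Finset.mem_union_left _ h))
    refine ⟨hpP, ?_, ?_⟩
    · intro x hx
      rcases Finset.mem_insert.1 hx with rfl | h
      · exact ⟨hp, hp4, hp7, hpr⟩
      · exact hQ1 x h
    · rw [Finset.prod_insert hpP, hD]; ring
  refine ⟨Q283.TW.prop_pos (mat Q P), ?_, Q283.XF.dprop_pos (mat Q P), ?_, ?_, ?_, ?_⟩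
  · refine Q283.XF.split_density (S := P) hbase n Finset.subset_union_right (mat Q P)
      (fun p => ¬ p ∣ D ∧ Good K (D * p)) ?_
    intro p hp hpR
    have hpD : ¬ p ∣ D := fun h => hpR ((hdvd p hp.1).1 h)
    obtain ⟨hpP, hP2, hD2⟩ := hs1 p hp.1 hp.2.1 hp.2.2.1 hpD
    have hc := (crit hr h4 h7 hn K hK hQ1 hP2 hD2).1
    have hdet := Q283.XF.det_split (Q := Q) hdisj (fun q hq => hGp q (hP q hq).1 (hP q hq).2.1)
      (hGp p hp.1 hp.2.1) hpP
    rw [← hmat Q P, ← hdet, hmat]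
    constructor
    · rintro ⟨-, h⟩
      exact (hc.1 h).2.2
    · intro h
      refine ⟨hpD, hc.2 ⟨fun q hq => (hQ q hq).2.2.2.2, ?_, h⟩⟩
      intro x hx
      rcases Finset.mem_insert.1 hx with rfl | h
      · exact hp.2.2.2
      · exact (hP x h).2.2.2
  · refine Q283.XF.inert_density (S := P) hbase n Finset.subset_union_right (mat Q P)
      (fun p => ¬ p ∣ D ∧ Good K (D * p)) ?_
    intro p hp hpR
    have hpD : ¬ p ∣ D := fun h => hpR ((hdvd p hp.1).1 h)
    obtain ⟨hpP, hP2, hD2⟩ := hi1 p hp.1 hp.2.1 hp.2.2.1 hp.2.2.2.1 hpD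
    have hc := (crit hr h4 h7 hn K hK hP2 hP1 hD2).1
    have hdet := Q283.XF.det_inert (Q := Q) (fun q hq => hGp q (hP q hq).1 (hP q hq).2.1)
      (hGp p hp.1 hp.2.1) hpP
    rw [← hmat Q P, ← hdet, hmat]
    constructor
    · rintro ⟨-, h⟩
      exact (hc.1 h).2.2
    · intro h
      refine ⟨hpD, hc.2 ⟨?_, fun q hq => (hP q hq).2.2.2, h⟩⟩
      intro x hx
      rcases Finset.mem_insert.1 hx with rfl | h
      · exact hp.2.2.2.2
      · exact (hQ x h).2.2.2.2
  · intro p hp hpD hg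
    obtain ⟨hpP, hP2, hD2⟩ := hs1 p hp.1 hp.2.1 hp.2.2.1 hpD
    have hc := crit hr h4 h7 hn K hK hQ1 hP2 hD2
    have := hc.2 (hc.1.1 hg)
    rwa [Finset.card_insert_of_notMem hpP] at this
  · intro p hp hpD hg
    obtain ⟨hpP, hP2, hD2⟩ := hi1 p hp.1 hp.2.1 hp.2.2.1 hp.2.2.2.1 hpD
    have hc := crit hr h4 h7 hn K hK hP2 hP1 hD2
    have := hc.2 (hc.1.1 hg)
    rwa [Finset.card_insert_of_notMem hpP] at this
  · intro p hp hp4 hprD hg
    have hpD : ¬ p ∣ D := fun h => hprD (h.mul_left _)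
    have hpr : p ≠ r := by
      rintro rfl
      exact hprD (Dvd.intro _ rfl)
    by_cases hp7 : IsSquare (-7 : ZMod p)
    · left
      obtain ⟨hpP, hP2, hD2⟩ := hs1 p hp hp4 hp7 hpD
      have hc := (crit hr h4 h7 hn K hK hQ1 hP2 hD2).1.1 hg
      exact ⟨hp, hp4, hp7, hc.2.1 p (Finset.mem_insert_self _ _)⟩
    · right
      obtain ⟨hpP, hP2, hD2⟩ := hi1 p hp hp4 hp7 hpr hpD
      have hc := (crit hr h4 h7 hn K hK hP2 hP1 hD2).1.1 hg
      exact ⟨hp, hp4, hp7, hpr, hc.1 p (Finset.mem_insert_self _ _)⟩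

end Pool.Agent.Results.MP_9ab903_nt.PrimeTwistsTwoPowerFields
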