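import Pool.Agent.Q155.GN.Ends

/-!
# The 2-part of the strong conjecture of Birch and Swinnerton-Dyer for exactly the share `0.4194…` of the curves
# `y² = x³ + D x` over `ℚ(i)` in a class of the norm, and independence for several curves

`K` is a number field with an isomorphism `e` of `ℤ[i]` with its ring of integers (so `K = ℚ(i)`), `D` runs over the
squarefree Gaussian integers `≡ 1 mod 2 + 2i` with `N(D) ≡ c mod 16`, ordered by the norm, prime to given
`m₁, …, m_M`. For `c N(m_k) ≡ 5 mod 8` the curve `C_k : y² = x³ + D m_k x` has finitely many points over `K` and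
`Ш(C_k/K)[2^∞] = 0` for exactly the proportion `κ = ∏ (1 - 2^{-(2i+1)})` of these `D`, infinitely many points or
`Ш(C_k/K)[2] ≠ 0` for all the others, and the `M` events are independent. If `c N(m_k) ≡ 13 mod 16` the 2-part of the strong
conjecture (the predicate `TwoPart` of the file `TwoPartQuarticProportion`) holds in the first case.
-/

set_option autoImplicit false

open Finset Filter NumberField Topology

namespace Pool.Agent.Results.MP_9ab903_nt.QuarticTwistsExactLaw

open Pool.Agent.Results.MP_9ab903_nt.TwoPartQuarticProportion (curve TwoPart)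
open Pool.Agent.TH841.NF.D (Sha)

/-- `D ≡ 1 mod 2 + 2i`. -/
def Primary (D : GaussianInt) : Prop := (⟨2, 2⟩ : GaussianInt) ∣ D - 1

/-- `κ = ∏ (1 - 2^{-(2i+1)}) = 0.4194…` -/
noncomputable def κ : ℝ := ∏' i : ℕ, (1 - (1 / 2 : ℝ) ^ (2 * i + 1))

/-- The squarefree `D ≡ 1 mod 2 + 2i` of norm at most `X` and `≡ c mod 16`, prime to the `m k`. -/
def Family {M : ℕ} (m : Fin M → GaussianInt) (c : ℤ) (X : ℕ) : Set GaussianInt :=
  {D | Primary D ∧ Squarefree D ∧ D.norm ≤ X ∧ D.norm % 16 = c ∧ ∀ k, IsCoprime D (m k)}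

section
variable {K : Type} [Field K] [NumberField K]

/-- Finitely many points over `K`, and the 2-primary part of `Ш` is trivial. -/
def RankZero (E : WeierstrassCurve K) : Prop :=
  Finite E.toAffine.Point ∧ ∀ (n : ℕ) (x : Sha E), 2 ^ n • x = 0 → x = 0

/-- Infinitely many points over `K`, or an element of order two in `Ш`. -/
def Other (E : WeierstrassCurve K) : Prop :=
  Infinite E.toAffine.Point ∨ ∃ x : Sha E, x ≠ 0 ∧ x + x = 0

/-- Exactly two points over `K`, and the 2-part of the strong conjecture holds with rank zero and trivial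
`Ш[2^∞]` (see the file `TwoPartQuarticProportion`). -/
def Formula (E : WeierstrassCurve K) : Prop := Nat.card E.toAffine.Point = 2 ∧ TwoPart E

end

open _root_.Q155.GN (Fm Fa mem_Fm nrm_mul' norm_nrm)
open Pool.Agent.Y699 (PS)
open H385 (nrm)

lemma kappa : κ = _root_.Q155.KG.al 0 := _root_.Q155.KG.al_zero.symm

lemma ps_iff {D : GaussianInt} : PS D ↔ Primary D ∧ Squarefree D :=
  ⟨fun h => ⟨(Pool.Agent.W164.RC.prim_iff_dvd D).1 h.prm, h.sqf⟩,
    fun h => ⟨(Pool.Agent.W164.RC.prim_iff_dvd D).2 h.1, h.2⟩⟩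

/-- The sets as finite sets. -/
lemma ncard_eq {M : ℕ} (m : Fin M → GaussianInt) (c : ℕ) (X : ℕ) (P : GaussianInt → Prop) :
    {D ∈ Family m c X | P D}.ncard = (Fm (fun D => Fa m c D ∧ P D) X).card := by
  rw [← Set.ncard_coe_finset]
  congr 1
  ext D
  rw [Set.mem_ofPred_eq, Finset.mem_coe, mem_Fm, ps_iff]
  unfold Family Fa
  rw [Set.mem_ofPred_eq, norm_nrm D]
  constructor
  · rintro ⟨⟨h1, h2, h3, h4, h5⟩, h6⟩
    exact ⟨⟨by exact_mod_cast h3, h1, h2⟩, ⟨by exact_mod_cast h4, h5⟩, h6⟩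
  · rintro ⟨⟨h3, h1, h2⟩, ⟨h4, h5⟩, h6⟩
    exact ⟨⟨h1, h2, by exact_mod_cast h3, by exact_mod_cast h4, h5⟩, h6⟩

lemma ncard_family {M : ℕ} (m : Fin M → GaussianInt) (c : ℕ) (X : ℕ) :
    (Family m c X).ncard = (Fm (Fa m c) X).card := by
  have h := ncard_eq m c X fun _ => True
  simp only [and_true, Set.ofPred_mem_eq] at h
  exact h

/-- **Main theorem.** -/
theorem result {K : Type} [Field K] [NumberField K] (e : GaussianInt ≃+* 𝓞 K) :
    (0.4194 < κ ∧ κ < 0.4195) ∧
    ∀ (M : ℕ) (m : Fin M → GaussianInt), Function.Injective m →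
      (∀ k, Primary (m k) ∧ Squarefree (m k)) → ∀ c : ℤ, (c = 1 ∨ c = 5 ∨ c = 9 ∨ c = 13) →
      (∃ δ : ℝ, 0 < δ ∧ ∀ᶠ X : ℕ in atTop, δ * X ≤ ((Family m c X).ncard : ℝ)) ∧
      ((∀ k, c * (m k).norm % 8 = 5) → ∀ B : Finset (Fin M),
        Tendsto (fun X : ℕ => ({D ∈ Family m c X | (∀ k ∈ B, RankZero (curve e (D * m k))) ∧
            ∀ k ∉ B, Other (curve e (D * m k))}.ncard : ℝ) / (Family m c X).ncard) atTop
          (𝓝 (κ ^ B.card * (1 - κ) ^ (M - B.card)))) ∧
      ((∀ k, c * (m k).norm % 16 = 13) → ∀ B : Finset (Fin M),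
        Tendsto (fun X : ℕ => ({D ∈ Family m c X | (∀ k ∈ B, Formula (curve e (D * m k))) ∧
            ∀ k ∉ B, Other (curve e (D * m k))}.ncard : ℝ) / (Family m c X).ncard) atTop
          (𝓝 (κ ^ B.card * (1 - κ) ^ (M - B.card)))) := by
  refine ⟨by rw [kappa, _root_.Q155.KG.al_zero]; exact ⟨_root_.Q155.KG.c2_gt, _root_.Q155.KG.c2_lt⟩, ?_⟩
  intro M m hm hp c hc
  obtain ⟨c, rfl⟩ : ∃ n : ℕ, c = n := by
    rcases hc with rfl | rfl | rfl | rfl
    · exact ⟨1, rfl⟩
    · exact ⟨5, rfl⟩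
    · exact ⟨9, rfl⟩
    · exact ⟨13, rfl⟩
  have hc1 : c < 16 := by omega
  have hc2 : c % 4 = 1 := by omega
  have hps : ∀ k, PS (m k) := fun k => ps_iff.2 (hp k)
  have hD : ∀ k D, PS D → Fa m c D → PS (D * m k) := fun k D h1 h2 =>
    _root_.Q155.GN.PS_mul h1 (hps k) (h2.2 k)
  have h16 : ∀ k (D : GaussianInt), Fa m c D → nrm (D * m k) % 16 = c * nrm (m k) % 16 :=
    fun k D h => by
      rw [nrm_mul', Nat.mul_mod, h.1]
      conv_rhs => rw [Nat.mul_mod, Nat.mod_eq_of_lt hc1]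
  refine ⟨?_, fun h => ?_, fun h => ?_⟩
  · obtain ⟨δ, h1, h2⟩ := _root_.Q155.GN.fam_low hps hc1 hc2
    refine ⟨δ, h1, h2.mono fun X hX => ?_⟩
    rw [ncard_family]
    exact hX
  · intro B
    have h8 : ∀ k (D : GaussianInt), Fa m c D → nrm (D * m k) % 8 = 5 := by
      intro k D hF
      have h1 := h k
      rw [norm_nrm (m k)] at h1
      have h2 : c * nrm (m k) % 8 = 5 := by exact_mod_cast h1
      have h3 := h16 k D hF
      omega
    rw [kappa]
    refine (_root_.Q155.GN.events _root_.Q155.GN.lj hm hps hc1 hc2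
      (fun k D => RankZero (curve e (D * m k))) (fun k D => Other (curve e (D * m k)))
      (fun k D h1 h2 => _root_.Q155.GN.tr_iff _root_.Q155.GN.ing3 (hD k D h1 h2) (h8 k D h2) e
        (_root_.Q155.GN.cu_curve e (hD k D h1 h2)))
      (fun k D h1 h2 => _root_.Q155.GN.ot_iff _root_.Q155.GN.ing3 (hD k D h1 h2) (h8 k D h2) e
        (_root_.Q155.GN.cu_curve e (hD k D h1 h2))) B).congr fun X => ?_
    rw [ncard_eq, ncard_family]
  · intro B
    have h13 : ∀ k (D : GaussianInt), Fa m c D → nrm (D * m k) % 16 = 13 := by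
      intro k D hF
      have h1 := h k
      rw [norm_nrm (m k)] at h1
      have h2 : c * nrm (m k) % 16 = 13 := by exact_mod_cast h1
      have h3 := h16 k D hF
      omega
    rw [kappa]
    refine (_root_.Q155.GN.events _root_.Q155.GN.lj hm hps hc1 hc2
      (fun k D => Formula (curve e (D * m k))) (fun k D => Other (curve e (D * m k)))
      (fun k D h1 h2 => _root_.Q155.GN.curve_tr _root_.Q155.GN.ing3 (hD k D h1 h2) (h13 k D h2) e)
      (fun k D h1 h2 => _root_.Q155.GN.curve_ot _root_.Q155.GN.ing3 (hD k D h1 h2) (h13 k D h2) e)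
      B).congr fun X => ?_
    rw [ncard_eq, ncard_family]

end Pool.Agent.Results.MP_9ab903_nt.QuarticTwistsExactLaw
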