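import Pool.Agent.Q283.EN.All

/-!
# The exact law of the Selmer groups of the quartic twists over every number field containing a square root of -1

Let `F` be any number field which contains `i`, `i² = -1`. The curves `E_D : y² = x³ + D x`, `D ∈ F^*`, are the elliptic curves
over `F` with the `j`-invariant `1728`, and `E_D` is isomorphic to `E_{D a⁴}`. The Selmer group of the endomorphism `1 + i` is
the group of the classes `a ∈ F^*` modulo squares for which the curve `a w² = a² u⁴ + D s⁴` has points over all completions; it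
contains the powers of `D`.

Theorem. (1) For every `D` which is no square the number of the classes is `2^(r+1)` for some `r ≥ 0`, and
`2^(rank E_D(F)) · #Ш(E_D / F)[2] ≤ 4^r`; the group `E_D(F)` is finite and `Ш(E_D / F)[2^∞] = 0` if and only if `r = 0`.

(2) Prescribe `D` up to fourth powers in the completions at all places above the prime numbers `≤ y` (it is equal to `D₀`
there), and let the order of `D` be odd at `k` further primes `q_0, …, q_(k-1)`, of norms `≤ X_0, …, X_(k-1)`, and divisible by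
`4` at all other primes. (All `D` which belong to the same `q_0, …, q_(k-1)` are equal up to squares and have the same classes.)
For large `k`, `X_0`, then `X_1` large in terms of `X_0`, and so on, the share of the tuples with exactly `2^(r+1)` classes tends
to

`α(r) = ∏_(i ≥ 0) (1 - 2^(-2i-1)) / ∏_(i = 1..r) (2^i - 1)`,

the probability that a large random symmetric matrix over `F_2` has corank `r`; in particular the share for which
`E_D(F)` is finite and `Ш(E_D / F)[2^∞] = 0` tends to `α(0) = 0.4194…`. The mean of `2^r` is at most `2 + ε`, and the average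
rank of `E_D(F)` is less than `1.53`.

Proof. The engine `Pool/Agent/Q283/EN` (tables of quadratic residue symbols of the `q_i`, equidistributed by Chebotarev's theorem
and the quadratic law of reciprocity over `F`, deduced from Artin's law) describes the Selmer group by a system of linear
equations. If the local groups at the places above the primes `≤ y` are isotropic for the Hilbert symbol and as large as
possible, and if the vectors `φ_j` of the symbols of the units at the `q_j` span `F_2^f`, then the solutions are the radical of a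
symmetric bilinear form on a space of dimension `k - 1 - h`, `h ≤ f`, which is uniformly distributed. The local groups are as
large as possible: `#E_D(F_v) / (1 + i) E_D(F_v) = 2 · 2^([F_v : ℚ_2] / 2)` at the places above `2`, from the filtration of
`E_D(F_v)`.

The parts were proved together with helpers 7, 14, 22, 26, 38, 53, 65, 68, 121, 123, 124, 129, 150, 153, 162, 164, 176, 181,
190, 193, 195, 208, 211, 222, 223, 224, 238, 241, 251, 262, 265, 275, 277, 285 and 296.
-/

set_option autoImplicit false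

namespace Pool.Agent.Results.MP_9ab903_nt.QuarticTwistsNumberFields

open NumberField IsDedekindDomain Filter Topology WeierstrassCurve
open Pool.Agent.TH841.NF.D (Sha)
open Pool.Agent.TH841.SH.D (Pt)

/-- The curve `E_D : y² = x³ + D x`. -/
def curve {F : Type} [Field F] (D : F) : WeierstrassCurve F := ⟨0, 0, 0, D, 0⟩

section Ensemble

variable {F : Type} [Field F] [NumberField F]

/-- `E_D(F)` is finite and the `2`-primary part of `Ш(E_D / F)` is trivial. -/
def FiniteAndTrivial (D : F) : Prop :=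
  Finite (curve D).toAffine.Point ∧ ∀ (n : ℕ) (x : Sha (curve D)), 2 ^ n • x = 0 → x = 0

/-- The rank of the group `E_D(F)` over `ℤ`. -/
noncomputable def rank (D : F) : ℕ := Module.finrank ℤ (Pt (curve D) F)

/-- The elements of `Ш(E_D / F)` which are killed by `2`. -/
def ShaTwo (D : F) : Type := {x : Sha (curve D) // (2 : ℕ) • x = 0}

/-- `a ≠ 0`, and the curve `a w² = a² u⁴ + D s⁴` has a point over all completions of `F` at its finite places. -/
def Solvable (D a : F) : Prop :=
  ∀ v : HeightOneSpectrum (𝓞 F), a ≠ 0 ∧ ∃ u w s : v.adicCompletion F, (u ≠ 0 ∨ w ≠ 0 ∨ s ≠ 0) ∧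
    (a : v.adicCompletion F) * w ^ 2 = (a : v.adicCompletion F) ^ 2 * u ^ 4 + (D : v.adicCompletion F) * s ^ 4

/-- There are exactly `N` classes modulo squares of elements `a` with `Solvable D a`. -/
def SelmerOrder (D : F) (N : ℕ) : Prop :=
  ∃ a : Fin N → F, (∀ i, Solvable D (a i)) ∧ (∀ i j, i ≠ j → ¬ ∃ x : F, a i / a j = x ^ 2) ∧
    ∀ b, Solvable D b → ∃ i, ∃ x : F, b / a i = x ^ 2

/-- The order of `a` at `v`. -/
noncomputable def order (v : HeightOneSpectrum (𝓞 F)) (a : F) : ℤ := -WithZero.log (v.valuation F a)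

/-- `a` is the fourth power of a nonzero element of the completion of `F` at `v`. -/
def FourthPowerAt (v : HeightOneSpectrum (𝓞 F)) (a : F) : Prop :=
  a ≠ 0 ∧ ∃ s : v.adicCompletion F, (a : v.adicCompletion F) = s ^ 4

/-- `v` lies above a prime number `l ≤ y`. -/
def Small (y : ℕ) (v : HeightOneSpectrum (𝓞 F)) : Prop :=
  ∃ l : ℕ, l.Prime ∧ l ≤ y ∧ (l : 𝓞 F) ∈ v.asIdeal

/-- Among the primes not above prime numbers `≤ y` the order of `D` is odd at the primes `q i` and divisible by `4` at the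
others; and at the primes above prime numbers `≤ y` the number `D` is equal to `D₀` up to local fourth powers. -/
structure Fits (y : ℕ) (D₀ : F) {k : ℕ} (q : Fin k → HeightOneSpectrum (𝓞 F)) (D : F) : Prop where
  ne : D ≠ 0
  unr : ∀ v : HeightOneSpectrum (𝓞 F), ¬ Small y v → (∀ i, q i ≠ v) → 4 ∣ order v D
  ram : ∀ i, Odd (order (q i) D)
  loc : ∀ v : HeightOneSpectrum (𝓞 F), Small y v → FourthPowerAt v (D / D₀)

/-- The ensemble: the tuples of `k` different primes `q i`, not above prime numbers `≤ y`, of norm `≤ X i`, to which a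
`D` belongs. -/
def Ensemble (y : ℕ) (D₀ : F) {k : ℕ} (X : Fin k → ℕ) : Set (Fin k → HeightOneSpectrum (𝓞 F)) :=
  {q | (Function.Injective q ∧ ∀ i, ¬ Small y (q i) ∧ Ideal.absNorm (q i).asIdeal ≤ X i) ∧ ∃ D, Fits y D₀ q D}

end Ensemble

/-- `P X` is true for all large `X 0`, for all `X 1` which are large in terms of `X 0`, …, for all `X (k-1)` which are
large in terms of the others. -/
def Nested : (k : ℕ) → ((Fin k → ℕ) → Prop) → Prop
  | 0, P => P Fin.elim0
  | k + 1, P => Nested k fun X => ∀ᶠ x : ℕ in atTop, P (Fin.snoc (α := fun _ => ℕ) X x)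

/-- The share of the subset `S` of the finite set `T`. -/
noncomputable def share {α : Type} (S T : Set α) : ℝ := (S.ncard : ℝ) / T.ncard

/-- The limit of the proportion of the symmetric matrices over `F_2` of corank `r`:
`∏_(i ≥ 0) (1 - 2^(-2i-1)) / ∏_(i = 1..r) (2^i - 1)`. -/
noncomputable def law (r : ℕ) : ℝ :=
  (∏' i : ℕ, (1 - (1 / 2 : ℝ) ^ (2 * i + 1))) / ∏ i ∈ Finset.range r, ((2 : ℝ) ^ (i + 1) - 1)

section Proof

theorem nested_iff : ∀ (k : ℕ) (P : (Fin k → ℕ) → Prop), Nested k P ↔ Q283.LQ.Nest k P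
  | 0, _ => Iff.rfl
  | k + 1, _ => nested_iff k _

theorem law_eq (r : ℕ) : law r = Q283.EN.al 2 r := by
  unfold law Q283.EN.al
  norm_num

variable {F : Type} [Field F] [NumberField F]

open Pool.Agent.Y682 in
open Pool.Agent.Q285.LK in
theorem fourth_iff (v : HeightOneSpectrum (𝓞 F)) (a : F) : FourthPowerAt v a ↔ Q7.LK.Lpw 4 v a := by
  unfold FourthPowerAt
  rw [cpl_coe]
  constructor
  · rintro ⟨hb, s, hs⟩ n
    have hb1 : algebraMap F (v.adicCompletion F) a ≠ 0 := (map_ne_zero _).2 hb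
    have hs0 : s ≠ 0 := by
      rintro rfl
      apply hb1
      rw [hs, zero_pow (by norm_num)]
    have hvs : vv v s ≠ 0 := (Valuation.ne_zero_iff _).2 hs0
    obtain ⟨x, hx⟩ := exists_approx v s⁻¹ (WithZero.exp (-(n : ℤ)) / vv v s)
      (div_ne_zero WithZero.exp_ne_zero hvs)
    refine ⟨x, ?_⟩
    rw [← vv_coe]
    set X := algebraMap F (v.adicCompletion F) x with hX
    have h1 : vv v (s * (X - s⁻¹)) < WithZero.exp (-(n : ℤ)) := by
      rw [map_mul, mul_comm]
      exact (lt_div_iff₀ (zero_lt_iff.2 hvs)).1 hx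
    have h2 : vv v (s * (X - s⁻¹)) ≤ 1 := h1.le.trans (by
      rw [← WithZero.exp_zero]
      exact WithZero.exp_le_exp.2 (by omega))
    have e1 : s * (X - s⁻¹) = s * X - 1 := by
      rw [mul_sub, mul_inv_cancel₀ hs0]
    have h3 : vv v (s * X) ≤ 1 := by
      have e2 : s * X = s * (X - s⁻¹) + 1 := by
        rw [e1]
        ring
      rw [e2]
      exact (Valuation.map_add _ _ _).trans (max_le h2 (by rw [map_one]))
    have e : algebraMap F (v.adicCompletion F) (a * x ^ 4 - 1) = (s * X) ^ 4 - 1 ^ 4 := by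
      rw [map_sub, map_mul, map_pow, map_one, hs, ← hX, mul_pow, one_pow]
    rw [e]
    refine lt_of_le_of_lt (vv_pow_sub v h3 (by rw [map_one]) 4) ?_
    rw [← e1]
    exact h1
  · intro h
    obtain ⟨h1, ν, -, h2⟩ := Pool.Agent.Q53.EN.lpw4 v h
    exact ⟨h1, ν, h2⟩

theorem q4_iff (v : HeightOneSpectrum (𝓞 F)) {D : F} (hD : D ≠ 0) : 4 ∣ order v D ↔ Q283.EN.Q4 v D := by
  unfold order Q283.EN.Q4
  have hv : v.valuation F D ≠ 0 := (Valuation.ne_zero_iff _).2 hD
  constructor
  · rintro ⟨n, hn⟩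
    obtain ⟨π, hπ⟩ := v.valuation_exists_uniformizer F
    refine ⟨π ^ (-n), ?_⟩
    have h0 : v.valuation F D = WithZero.exp (WithZero.log (v.valuation F D)) := (WithZero.exp_log hv).symm
    rw [map_mul, map_pow, map_zpow₀, hπ, h0, ← WithZero.exp_zsmul, ← WithZero.exp_nsmul, ← WithZero.exp_add,
      ← WithZero.exp_zero]
    congr 1
    simp only [smul_eq_mul, nsmul_eq_mul]
    push_cast
    linarith
  · rintro ⟨x, hx⟩
    have hx0 : x ≠ 0 := by
      rintro rfl
      rw [zero_pow (by norm_num), mul_zero, map_zero] at hx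
      exact zero_ne_one hx
    have hvx : v.valuation F x ≠ 0 := (Valuation.ne_zero_iff _).2 hx0
    have h1 := congrArg WithZero.log hx
    rw [map_mul, map_pow, WithZero.log_mul hv (pow_ne_zero _ hvx), WithZero.log_pow, WithZero.log_one] at h1
    refine ⟨WithZero.log (v.valuation F x), ?_⟩
    simp only [nsmul_eq_mul] at h1
    push_cast at h1
    linarith

theorem odd_iff (v : HeightOneSpectrum (𝓞 F)) (D : F) : Odd (order v D) ↔ Q7.LK.vl 2 v D = 1 := by
  unfold order Q7.LK.vl
  rw [← Int.cast_neg]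
  constructor
  · rintro ⟨n, hn⟩
    rw [hn]
    push_cast
    have h2 : (2 : ZMod 2) = 0 := rfl
    rw [h2, zero_mul, zero_add]
  · intro h
    by_contra hc
    rw [Int.not_odd_iff_even] at hc
    obtain ⟨n, hn⟩ := hc
    rw [hn, Int.cast_add, CharTwo.add_self_eq_zero] at h
    exact zero_ne_one h

theorem fits_iff {y : ℕ} {D₀ : F} {k : ℕ} {q : Fin k → HeightOneSpectrum (𝓞 F)} {D : F} :
    Fits y D₀ q D ↔ Q283.EN.QFits y D₀ q D := by
  constructor
  · intro h
    exact ⟨h.ne, fun v hv hq => (q4_iff v h.ne).1 (h.unr v hv hq), fun i => (odd_iff _ _).1 (h.ram i),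
      fun v hv => (fourth_iff v _).1 (h.loc v hv)⟩
  · intro h
    exact ⟨h.ne, fun v hv hq => (q4_iff v h.ne).2 (h.unr v hv hq), fun i => (odd_iff _ _).2 (h.ram i),
      fun v hv => (fourth_iff v _).2 (h.loc v hv)⟩

end Proof

/-- **Main result.** -/
theorem result (F : Type) [Field F] [NumberField F] (i : F) (hi : i ^ 2 = -1) :
    (∀ D : F, D ≠ 0 → (¬ ∃ x : F, D = x ^ 2) → ∃ r : ℕ, SelmerOrder D (2 ^ (r + 1)) ∧ Finite (ShaTwo D) ∧
      2 ^ rank D * Nat.card (ShaTwo D) ≤ 4 ^ r ∧ (FiniteAndTrivial D ↔ r = 0)) ∧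
    (4194 / 10000 < law 0 ∧ law 0 < 4195 / 10000) ∧
    ∃ y₀ : ℕ, ∀ y, y₀ ≤ y → ∀ D₀ : F, D₀ ≠ 0 → ∀ (R : ℕ) (ε : ℝ), 0 < ε → ∃ k₀ : ℕ, ∀ k, k₀ ≤ k → Nested k fun X =>
      (Ensemble y D₀ X).Finite ∧ (Ensemble y D₀ X).Nonempty ∧
      (∀ q ∈ Ensemble y D₀ X, ∀ D D', Fits y D₀ q D → Fits y D₀ q D' →
        (∃ x : F, D' = D * x ^ 2) ∧ ∀ a, Solvable D a ↔ Solvable D' a) ∧
      |share {q ∈ Ensemble y D₀ X | ∀ D, Fits y D₀ q D → FiniteAndTrivial D} (Ensemble y D₀ X) - law 0| ≤ ε ∧
      (∀ r ≤ R, |share {q ∈ Ensemble y D₀ X | ∀ D, Fits y D₀ q D → SelmerOrder D (2 ^ (r + 1))}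
        (Ensemble y D₀ X) - law r| ≤ ε) ∧
      ∀ (T : Finset (Fin k → HeightOneSpectrum (𝓞 F))) (D : (Fin k → HeightOneSpectrum (𝓞 F)) → F),
        (∀ q, q ∈ T ↔ q ∈ Ensemble y D₀ X) → (∀ q ∈ T, Fits y D₀ q (D q)) →
        (∑ q ∈ T, (rank (D q) : ℝ)) / T.card < 153 / 100 ∧
        ∀ N : (Fin k → HeightOneSpectrum (𝓞 F)) → ℕ, (∀ q ∈ T, SelmerOrder (D q) (N q)) →
          (∑ q ∈ T, (N q : ℝ)) / T.card ≤ 4 + ε := by
  refine ⟨fun D hD hc => ?_, ?_, ?_⟩
  · obtain ⟨r, h1, h2, h3, h4⟩ := Q283.EN.t_QPT F i D hi hD hc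
    refine ⟨r, h1, h2, ?_, h4⟩
    have h5 : (2 ^ r) ^ 2 = 4 ^ r := by
      rw [← pow_mul, mul_comm, pow_mul]
      norm_num
    rw [← h5]
    exact h3
  · have h := Q283.EN.t_NUMA.2.1
    rw [← law_eq] at h
    constructor
    · have := h.1
      norm_num at this ⊢
      linarith
    · have := h.2
      norm_num at this ⊢
      linarith
  obtain ⟨y0, hy0⟩ := Q283.EN.t_QMAIN F i hi
  refine ⟨y0, fun y hy D₀ hD₀ R ε hε => ?_⟩
  have hav : 2 * Q283.EN.avg 2 < 1.53 := Q283.EN.t_NUMA.2.2.2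
  set η : ℝ := min (ε / 2) ((1.53 - 2 * Q283.EN.avg 2) / 4) with hη
  have hη0 : 0 < η := lt_min (by positivity) (by linarith)
  have hη1 : η ≤ ε / 2 := min_le_left _ _
  have hη2 : η ≤ (1.53 - 2 * Q283.EN.avg 2) / 4 := min_le_right _ _
  obtain ⟨k0, hk1, hk0⟩ := hy0 y hy D₀ hD₀ R η hη0
  refine ⟨k0, fun k hk => (nested_iff k _).mpr (Q7.LK.nest_mono k _ _ (fun X hX => ?_) (hk0 k hk))⟩
  obtain ⟨hfin, hpos, huniq, hlaw, htriv, hmean⟩ := hX
  have hE : Ensemble y D₀ X =
      {q ∈ (Q283.LQ.Box y X : Set (Fin k → HeightOneSpectrum (𝓞 F))) | ∃ D, Q283.EN.QFits y D₀ q D} := by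
    ext q
    simp only [Ensemble, Q283.LQ.Box, Set.mem_ofPred_eq, fits_iff]
    rfl
  have hEfin : (Ensemble y D₀ X).Finite := by
    rw [hE]
    exact hfin.subset (fun q hq => hq.1)
  rw [← hE] at hpos
  have hne : (Ensemble y D₀ X).Nonempty := by
    rw [← Set.ncard_pos hEfin]
    exact_mod_cast hpos
  have key : ∀ (Q : F → Prop) (c : ℝ), |({q ∈ (Q283.LQ.Box y X : Set (Fin k → HeightOneSpectrum (𝓞 F))) |
      (∃ D, Q283.EN.QFits y D₀ q D) ∧ ∀ D, Q283.EN.QFits y D₀ q D → Q D}.ncard : ℝ) -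
      c * ((Ensemble y D₀ X).ncard : ℝ)| ≤ η * ((Ensemble y D₀ X).ncard : ℝ) →
      |share {q ∈ Ensemble y D₀ X | ∀ D, Fits y D₀ q D → Q D} (Ensemble y D₀ X) - c| ≤ ε := by
    intro Q c h
    have h2 : {q ∈ Ensemble y D₀ X | ∀ D, Fits y D₀ q D → Q D} =
        {q ∈ (Q283.LQ.Box y X : Set (Fin k → HeightOneSpectrum (𝓞 F))) |
          (∃ D, Q283.EN.QFits y D₀ q D) ∧ ∀ D, Q283.EN.QFits y D₀ q D → Q D} := by
      rw [hE]
      ext q
      simp only [Set.mem_ofPred_eq, fits_iff]
      tauto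
    rw [h2]
    unfold share
    rw [div_sub' hpos.ne', abs_div, abs_of_pos hpos, div_le_iff₀ hpos, mul_comm ((Ensemble y D₀ X).ncard : ℝ) c]
    refine le_trans h (mul_le_mul_of_nonneg_right ?_ hpos.le)
    linarith
  rw [← hE] at htriv
  refine ⟨hEfin, hne, fun q hq D D' hD hD' => ?_, ?_, fun r hr => ?_, fun T D hT hD => ?_⟩
  · rw [hE] at hq
    obtain ⟨h1, ⟨x, hx⟩, h3⟩ := huniq q hq.1 D D' (fits_iff.1 hD) (fits_iff.1 hD')
    refine ⟨⟨x, ?_⟩, h3⟩
    rw [← hx, mul_div_cancel₀ _ hD.ne]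
  · rw [law_eq]
    exact key _ _ htriv
  · have h1 := hlaw r hr
    rw [← hE] at h1
    rw [law_eq]
    exact key _ _ h1
  · have hT' : ∀ q, q ∈ T ↔ q ∈ (Q283.LQ.Box y X : Set (Fin k → HeightOneSpectrum (𝓞 F))) ∧
        ∃ D, Q283.EN.QFits y D₀ q D := by
      intro q
      rw [hT q, hE]
      rfl
    have hcard : 0 < (T.card : ℝ) := by
      obtain ⟨q, hq⟩ := hne
      exact_mod_cast Finset.card_pos.2 ⟨q, (hT q).2 hq⟩
    obtain ⟨r, h1, h2, h3⟩ := hmean T D hT' (fun q hq => fits_iff.mp (hD q hq))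
    constructor
    · rw [div_lt_iff₀ hcard]
      have h4 : ∑ q ∈ T, (rank (D q) : ℝ) ≤ 2 * ∑ q ∈ T, (r q : ℝ) := by
        rw [Finset.mul_sum]
        refine Finset.sum_le_sum fun q hq => ?_
        have h5 : (rank (D q) : ℝ) ≤ ((2 * r q : ℕ) : ℝ) := by
          exact_mod_cast (h1 q hq).2
        rw [Nat.cast_mul, Nat.cast_ofNat] at h5
        exact h5
      norm_num at hη2 hav
      nlinarith
    · intro N hN
      have h4 : ∀ q ∈ T, (N q : ℝ) = 2 * 2 ^ r q := by
        intro q hq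
        have h5 := Q283.EN.hasN_uniq (fun a h => Q283.EN.pq_ne h) (hN q hq) (h1 q hq).1
        rw [h5]
        push_cast
        ring
      rw [Finset.sum_congr rfl h4, ← Finset.mul_sum, div_le_iff₀ hcard]
      nlinarith

end Pool.Agent.Results.MP_9ab903_nt.QuarticTwistsNumberFields
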